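import Mathlib

set_option autoImplicit false

namespace Pool.Agent.H.MP_5b422c_co

open Cardinal

lemma exists_om : ∃ (O : Type) (_ : LinearOrder O), #O = ℵ₁ ∧ ∀ f : ℕ → O, ∃ b, ∀ n, f n < b := by
  refine ⟨(ℵ₁ : Cardinal.{0}).ord.ToType, inferInstance, by simp, fun f => ?_⟩
  by_contra hc
  push Not at hc
  have h1 : ∀ n, (Set.Iic (f n)).Countable := by
    intro n
    rw [← Set.Iio_insert]
    refine Set.Countable.insert _ ?_
    have := Cardinal.mk_Iio_toType_ord_lt (f n)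
    rw [← Cardinal.le_aleph0_iff_set_countable]
    exact Order.lt_succ_iff.mp (this.trans_eq Cardinal.succ_aleph0.symm)
  have h2 : (Set.univ : Set ((ℵ₁ : Cardinal.{0}).ord.ToType)).Countable := by
    refine (Set.countable_iUnion h1).mono fun b _ => ?_
    obtain ⟨n, hn⟩ := hc b
    exact Set.mem_iUnion.mpr ⟨n, hn⟩
  rw [← Cardinal.le_aleph0_iff_set_countable, Cardinal.mk_univ] at h2
  simp only [Cardinal.mk_toType, Cardinal.card_ord] at h2
  exact absurd h2 (not_le.mpr Cardinal.aleph0_lt_aleph_one)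

variable {O : Type} [LinearOrder O]

def Pos (P : (ℕ → O) → Prop) : ℕ → ℕ → (ℕ → O) → Prop
  | 0, _, a => P a
  | d + 1, p, a => ∀ α, ∃ β, α < β ∧ Pos P d (p + 1) (Function.update a p β)

def Good (P : (ℕ → O) → Prop) (D p : ℕ) (a : ℕ → O) : Prop := Pos P (D - p) p a

lemma good_lt (P : (ℕ → O) → Prop) (D p : ℕ) (a : ℕ → O) (h : p < D) :
    Good P D p a ↔ ∀ α, ∃ β, α < β ∧ Good P D (p + 1) (Function.update a p β) := by
  unfold Good
  have : D - p = (D - (p + 1)) + 1 := by omega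
  rw [this]
  rfl

lemma good_ge (P : (ℕ → O) → Prop) (D p : ℕ) (a : ℕ → O) (h : D ≤ p) : Good P D p a ↔ P a := by
  unfold Good
  have : D - p = 0 := by omega
  rw [this]
  rfl

lemma good_many (P : (ℕ → O) → Prop) (D : ℕ) (r : ℕ) : ∀ p a, p + r ≤ D → Good P D p a →
    ∃ a', Good P D (p + r) a' ∧ ∀ i < p, a' i = a i := by
  induction r with
  | zero => intro p a _ h; exact ⟨a, h, fun _ _ => rfl⟩
  | succ r ih =>
    intro p a hp h
    obtain ⟨β, -, hβ⟩ := (good_lt P D p a (by omega)).mp h (a 0)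
    obtain ⟨a', h1, h2⟩ := ih (p + 1) _ (by omega) hβ
    refine ⟨a', by rwa [show p + (r + 1) = p + 1 + r by ring], fun i hi => ?_⟩
    rw [h2 i (by omega), Function.update_of_ne (by omega)]

def R (σ : ℕ → ℕ) (m : ℕ) (x y : ℕ → O) : Prop :=
  ∀ t < m, x (t + σ t) < y t ∧ y t < x (t + σ t + 1)

lemma claim2 (σ : ℕ → ℕ) (hσ : Monotone σ) (P : (ℕ → O) → Prop) (D : ℕ) (a0 : ℕ → O)
    (h0 : Good P D 0 a0) (t : ℕ) : t + σ t + 1 ≤ D →
    ∃ a b, Good P D (t + σ t + 1) a ∧ Good P D t b ∧ R σ t a b := by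
  induction t with
  | zero =>
    intro h
    obtain ⟨a, h1, -⟩ := good_many P D (0 + σ 0 + 1) 0 a0 (by omega) h0
    exact ⟨a, a0, by simpa using h1, h0, fun t ht => absurd ht (by omega)⟩
  | succ t ih =>
    intro h
    have hm : σ t ≤ σ (t + 1) := hσ (Nat.le_succ t)
    obtain ⟨a, b, ha, hb, hR⟩ := ih (by omega)
    obtain ⟨β, hβ1, hβ⟩ := (good_lt P D t b (by omega)).mp hb (a (t + σ t))
    obtain ⟨γ, hγ1, hγ⟩ := (good_lt P D _ a (by omega)).mp ha β
    obtain ⟨a', h1, h2⟩ := good_many P D (σ (t + 1) - σ t) _ _ (by omega) hγ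
    refine ⟨a', _, by rwa [show t + 1 + σ (t + 1) + 1 = t + σ t + 1 + 1 + (σ (t + 1) - σ t) by omega],
      hβ, fun u hu => ?_⟩
    rcases Nat.lt_succ_iff_lt_or_eq.mp hu with hu' | rfl
    · have hm' : σ u ≤ σ t := hσ hu'.le
      rw [h2 _ (by omega), h2 _ (by omega), Function.update_of_ne (by omega),
        Function.update_of_ne (by omega), Function.update_of_ne (by omega)]
      exact hR u hu'
    · rw [h2 _ (by omega), h2 _ (by omega), Function.update_of_ne (by omega),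
        Function.update_self, Function.update_self]
      exact ⟨hβ1, hγ1⟩

lemma claim1 (hub : ∀ f : ℕ → O, ∃ b, ∀ n, f n < b) (P : ℕ → (ℕ → O) → Prop) (D : ℕ → ℕ)
    (a0 : ℕ → O) (h0 : ∀ j, ¬ Good (P j) (D j) 0 a0) :
    ∃ x : ℕ → O, StrictMono x ∧ ∀ j, ∃ a, (∀ i < D j, x i = a i) ∧ ¬ P j a := by
  have step : ∀ (p : ℕ) (a : ℕ → O), ∃ β, a (p - 1) < β ∧
      ((∀ j, p ≤ D j → ¬ Good (P j) (D j) p a) →
        ∀ j, p + 1 ≤ D j → ¬ Good (P j) (D j) (p + 1) (Function.update a p β)) := by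
    intro p a
    have : ∀ j, ∃ α, (p + 1 ≤ D j → ¬ Good (P j) (D j) p a →
        ∀ β, α < β → ¬ Good (P j) (D j) (p + 1) (Function.update a p β)) := by
      intro j
      by_cases h : p + 1 ≤ D j ∧ ¬ Good (P j) (D j) p a
      · have h2 := h.2
        rw [good_lt _ _ _ _ (by omega)] at h2
        push Not at h2
        obtain ⟨α, hα⟩ := h2
        exact ⟨α, fun _ _ => hα⟩
      · exact ⟨a 0, fun h1 h2 => absurd ⟨h1, h2⟩ h⟩
    choose α hα using this
    obtain ⟨b, hb⟩ := hub (fun j => max (α j) (a (p - 1)))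
    refine ⟨b, lt_of_le_of_lt (le_max_right _ _) (hb 0), fun h j hj => ?_⟩
    exact hα j hj (h j (by omega)) b (lt_of_le_of_lt (le_max_left _ _) (hb j))
  choose β hβ1 hβ2 using step
  obtain ⟨sq, hs0, hs⟩ : ∃ sq : ℕ → ℕ → O, sq 0 = a0 ∧
      ∀ p, sq (p + 1) = Function.update (sq p) p (β p (sq p)) :=
    ⟨fun p => Nat.rec a0 (fun p a => Function.update a p (β p a)) p, rfl, fun _ => rfl⟩
  have hinv : ∀ p j, p ≤ D j → ¬ Good (P j) (D j) p (sq p) := by
    intro p
    induction p with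
    | zero => intro j _; rw [hs0]; exact h0 j
    | succ p ih => rw [hs]; exact hβ2 p _ ih
  have hst : ∀ q i, i < q → sq (i + 1) i = sq q i := by
    intro q
    induction q with
    | zero => intro i hi; omega
    | succ q ih =>
      intro i hi
      rcases Nat.lt_succ_iff_lt_or_eq.mp hi with h | rfl
      · rw [hs q, Function.update_of_ne (by omega)]; exact ih i h
      · rfl
  refine ⟨fun i => sq (i + 1) i, strictMono_nat_of_lt_succ fun i => ?_, fun j => ?_⟩
  · have := hβ1 (i + 1) (sq (i + 1))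
    rw [hs (i + 1), Function.update_self]
    simpa using this
  · refine ⟨sq (D j), fun i hi => hst _ _ hi, ?_⟩
    rw [← good_ge (P j) (D j) (D j) _ le_rfl]
    exact hinv _ j le_rfl

lemma cover (hub : ∀ f : ℕ → O, ∃ b, ∀ n, f n < b) (a0 : ℕ → O) (σ : ℕ → ℕ) (hσ : Monotone σ)
    (Y : ℕ → Set (ℕ → O)) (m : ℕ → ℕ) (hY : ∀ x, StrictMono x → ∃ j, x ∈ Y j) :
    ∃ j, ∃ x ∈ Y j, ∃ y ∈ Y j, R σ (m j) x y := by
  by_cases h : ∀ j, ¬ Good (fun a => ∃ y ∈ Y j, ∀ i < m j + σ (m j) + 1, y i = a i)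
      (m j + σ (m j) + 1) 0 a0
  · exfalso
    obtain ⟨x, hx, h1⟩ := claim1 hub _ _ a0 h
    obtain ⟨j, hj⟩ := hY x hx
    obtain ⟨a, ha, h2⟩ := h1 j
    exact h2 ⟨x, hj, ha⟩
  · push Not at h
    obtain ⟨j, hj⟩ := h
    obtain ⟨a, b, ha, hb, hR⟩ := claim2 σ hσ _ _ a0 hj (m j) le_rfl
    obtain ⟨b', hb', hbb⟩ := good_many _ _ (σ (m j) + 1) _ _ (by omega) hb
    rw [good_ge _ _ _ _ le_rfl] at ha
    rw [good_ge _ _ _ _ (by omega)] at hb'
    obtain ⟨x, hx, hxa⟩ := ha
    obtain ⟨y, hy, hyb⟩ := hb'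
    refine ⟨j, x, hx, y, hy, fun t ht => ?_⟩
    have hm : σ t ≤ σ (m j) := hσ ht.le
    rw [hxa _ (by omega), hxa _ (by omega), hyb _ (by omega), hbb _ ht]
    exact hR t ht

lemma bip {W : Type} [Fintype W] (H : SimpleGraph W) (X : W → ℤ → O) (n : ℕ)
    (hn : Fintype.card W ≤ n) (s L : ℤ) (hs : 2 * n + 2 ≤ s) (hL : s * (n + 1) + n + 2 ≤ L)
    (hmono : ∀ u v, H.Adj u v → ∀ z z', -L ≤ z → z < z' → X u z < X u z')
    (hadj : ∀ u v, H.Adj u v →
      (∀ z, -L ≤ z → z ≤ L → X u (z + s) < X v z ∧ X v z < X u (z + s + 1)) ∨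
      (∀ z, -L ≤ z → z ≤ L → X v (z + s) < X u z ∧ X u z < X v (z + s + 1))) :
    H.Colorable 2 := by
  classical
  have hn0 : (0 : ℤ) ≤ n := Int.natCast_nonneg n
  have step : ∀ u v (ξ : O) (t l : ℤ), H.Adj u v → -l ≤ t → t ≤ l → l ≤ n →
      X u (s * t - l) ≤ ξ → ξ ≤ X u (s * t + l) →
      ∃ t', (t' = t + 1 ∨ t' = t - 1) ∧ X v (s * t' - (l + 1)) ≤ ξ ∧ ξ ≤ X v (s * t' + (l + 1)) := by
    intro u v ξ t l h h1 h2 h3 h4 h5
    have b1 : s * t ≤ s * n := by nlinarith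
    have b2 : -(s * n) ≤ s * t := by nlinarith
    have hm := hmono v u h.symm
    rcases hadj u v h with h6 | h6
    · refine ⟨t - 1, Or.inr rfl, ?_, ?_⟩
      · have := (h6 (s * (t - 1) - (l + 1)) (by nlinarith) (by nlinarith)).2
        rw [show s * (t - 1) - (l + 1) + s + 1 = s * t - l by ring] at this
        exact (this.trans_le h4).le
      · have := (h6 (s * (t - 1) + l) (by nlinarith) (by nlinarith)).1
        rw [show s * (t - 1) + l + s = s * t + l by ring] at this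
        exact ((h5.trans_lt this).trans (hm _ _ (by nlinarith) (by linarith))).le
    · refine ⟨t + 1, Or.inl rfl, ?_, ?_⟩
      · have := (h6 (s * t - l) (by nlinarith) (by nlinarith)).1
        exact (((hm _ _ (by nlinarith) (by linarith)).trans this).trans_le h4).le
      · have := (h6 (s * t + l) (by nlinarith) (by nlinarith)).2
        rw [show s * t + l + s + 1 = s * (t + 1) + (l + 1) by ring] at this
        exact (h5.trans_lt this).le
  have walk : ∀ (v r : W) (p : H.Walk v r), p.length ≤ n → ∃ t : ℤ, -(p.length : ℤ) ≤ t ∧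
      t ≤ p.length ∧ X v (s * t - p.length) ≤ X r 0 ∧ X r 0 ≤ X v (s * t + p.length) := by
    intro v r p
    induction p with
    | nil => intro _; exact ⟨0, by simp, by simp, by simp, by simp⟩
    | cons h p ih =>
      intro hl
      rw [SimpleGraph.Walk.length_cons] at hl ⊢
      obtain ⟨t, h1, h2, h3, h4⟩ := ih (by omega)
      obtain ⟨t', h5, h6, h7⟩ := step _ _ _ t _ h.symm h1 h2 (by exact_mod_cast (by omega)) h3 h4
      push_cast
      refine ⟨t', ?_, ?_, h6, h7⟩ <;> rcases h5 with rfl | rfl <;> linarith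
  have ex : ∀ v : W, ∃ t l : ℤ, -l ≤ t ∧ t ≤ l ∧ l ≤ n ∧
      X v (s * t - l) ≤ X (H.connectedComponentMk v).out 0 ∧
      X (H.connectedComponentMk v).out 0 ≤ X v (s * t + l) := by
    intro v
    have hr : H.Reachable v (H.connectedComponentMk v).out := by
      apply SimpleGraph.ConnectedComponent.exact
      exact (Quot.out_eq _).symm
    obtain ⟨p⟩ := hr
    have hl : p.toPath.1.length < Fintype.card W := p.toPath.2.length_lt
    obtain ⟨t, h1, h2, h3, h4⟩ := walk v _ p.toPath.1 (by omega)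
    exact ⟨t, _, h1, h2, by exact_mod_cast (by omega), h3, h4⟩
  choose t l h1 h2 h3 h4 h5 using ex
  have key : ∀ u v, H.Adj u v → (t v = t u + 1 ∨ t v = t u - 1) := by
    intro u v h
    obtain ⟨t', h6, h7, h8⟩ := step u v _ _ _ h (h1 u) (h2 u) (h3 u) (h4 u) (h5 u)
    have hc : H.connectedComponentMk u = H.connectedComponentMk v :=
      SimpleGraph.ConnectedComponent.sound h.reachable
    rw [hc] at h7 h8
    have hm := hmono v u h.symm
    have a1 := h1 u; have a2 := h2 u; have a3 := h3 u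
    have c1 := h1 v; have c2 := h2 v; have c3 := h3 v
    have b2 : -(s * n) ≤ s * t v := by nlinarith
    have b3 : -(s * (n + 1)) ≤ s * t' := by rcases h6 with rfl | rfl <;> nlinarith
    have e1 : s * t' - (l u + 1) ≤ s * t v + l v := by
      by_contra hc
      push Not at hc
      exact absurd (h7.trans (h5 v)) (not_le.mpr (hm _ _ (by nlinarith) hc))
    have e2 : s * t v - l v ≤ s * t' + (l u + 1) := by
      by_contra hc
      push Not at hc
      exact absurd ((h4 v).trans h8) (not_le.mpr (hm _ _ (by nlinarith) hc))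
    have e3 : t v = t' := by
      rcases lt_trichotomy (t v) t' with hlt | he | hlt
      · exfalso
        have : s * (t v + 1) ≤ s * t' := by nlinarith
        nlinarith
      · exact he
      · exfalso
        have : s * (t' + 1) ≤ s * t v := by nlinarith
        nlinarith
    rw [e3]; exact h6
  have C : H.Coloring (ZMod 2) := SimpleGraph.Coloring.mk (fun v => ((t v : ℤ) : ZMod 2)) (by
    intro u v h hc
    rcases key u v h with h9 | h9
    · rw [h9] at hc
      push_cast at hc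
      exact absurd (left_eq_add.mp hc) (by decide)
    · rw [h9] at hc
      push_cast at hc
      rw [sub_eq_add_neg] at hc
      exact absurd (left_eq_add.mp hc) (by decide))
  simpa using C.colorable

inductive T (O : Type) : Type
  | leaf : T O
  | node (x : ℕ → O) (ch : ℕ → T O) : T O

def lab (a0 : ℕ → O) : T O → ℕ → O
  | T.leaf => a0
  | T.node x _ => x

def kid : T O → ℕ → T O
  | T.leaf, _ => T.leaf
  | T.node _ ch, i => ch i

noncomputable def rk (ub : (ℕ → O) → O) (o : O) : T O → O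
  | T.leaf => o
  | T.node _ ch => ub (fun i => rk ub o (ch i))

def sg (t : ℕ) : ℕ := 2 * Nat.log 4 t + 2

lemma sg_mono : Monotone sg := fun a b h => by
  unfold sg
  have := Nat.log_mono_right (b := 4) h
  omega

def Ad (m : ℕ) (x y : ℕ → O) : Prop := StrictMono x ∧ StrictMono y ∧ (R sg m x y ∨ R sg m y x)

lemma Ad.symm {m : ℕ} {x y : ℕ → O} (h : Ad m x y) : Ad m y x := ⟨h.2.1, h.1, h.2.2.symm⟩

lemma Ad.mono {m m' : ℕ} {x y : ℕ → O} (h : Ad m x y) (hm : m' ≤ m) : Ad m' x y :=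
  ⟨h.1, h.2.1, h.2.2.imp (fun h1 t ht => h1 t (by omega)) (fun h1 t ht => h1 t (by omega))⟩

def GG (a0 : ℕ → O) (M : ℕ → ℕ) : SimpleGraph (T O) :=
  SimpleGraph.fromRel fun u v => ∃ i, kid u i = v ∧ Ad (M i) (lab a0 u) (lab a0 v)

omit [LinearOrder O] in
lemma rk_node (ub : (ℕ → O) → O) (o : O) (x : ℕ → O) (ch : ℕ → T O) :
    rk ub o (T.node x ch) = ub (fun i => rk ub o (ch i)) := rfl

lemma rk_lt (ub : (ℕ → O) → O) (hub : ∀ f n, f n < ub f) (o : O) (u : T O) (i : ℕ)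
    (h : u ≠ kid u i) : rk ub o (kid u i) < rk ub o u := by
  cases u with
  | leaf => exact absurd rfl h
  | node x ch => rw [rk_node]; exact hub (fun i => rk ub o (ch i)) i

lemma col_O (hub : ∀ f : ℕ → O, ∃ b, ∀ n, f n < b) (a0 : ℕ → O) (M : ℕ → ℕ) :
    Nonempty ((GG a0 M).Coloring O) := by
  choose ub hub using hub
  refine ⟨SimpleGraph.Coloring.mk (rk ub (a0 0)) ?_⟩
  intro u v h
  rw [GG, SimpleGraph.fromRel_adj] at h
  obtain ⟨hne, ⟨i, rfl, -⟩ | ⟨i, rfl, -⟩⟩ := h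
  · exact (rk_lt ub hub _ u i hne).ne'
  · exact (rk_lt ub hub _ v i hne.symm).ne

lemma not_col (hub : ∀ f : ℕ → O, ∃ b, ∀ n, f n < b) (a0 : ℕ → O) (M : ℕ → ℕ)
    (C : (GG a0 M).Coloring ℕ) : False := by
  classical
  obtain ⟨j, x, hx, y, hy, hR⟩ := cover hub a0 sg sg_mono
    (fun j => {x | StrictMono x ∧ (∃ v, lab a0 v = x ∧ C v = j.unpair.1) ∧
      ∀ u, C u = j.unpair.1 → ¬ Ad (M j.unpair.2) x (lab a0 u)})
    (fun j => M j.unpair.2) (by
      intro x hx
      have : ∀ q : ℕ, ∃ u, (∀ i, ∃ u, C u = q ∧ Ad (M i) x (lab a0 u)) →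
          C u = q ∧ Ad (M q) x (lab a0 u) := by
        intro q
        by_cases h : ∀ i, ∃ u, C u = q ∧ Ad (M i) x (lab a0 u)
        · obtain ⟨u, hu⟩ := h q
          exact ⟨u, fun _ => hu⟩
        · exact ⟨T.leaf, fun h1 => absurd h1 h⟩
      choose ch hch using this
      have hnb : ¬ ∀ i, ∃ u, C u = C (T.node x ch) ∧ Ad (M i) x (lab a0 u) := by
        intro h
        obtain ⟨h1, h2⟩ := hch _ h
        refine C.valid (v := T.node x ch) (w := ch (C (T.node x ch))) ?_ h1.symm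
        refine (SimpleGraph.fromRel_adj _ _ _).mpr ⟨fun he => ?_, Or.inl ⟨_, rfl, h2⟩⟩
        choose ub hub using hub
        have h3 : rk ub (a0 0) (ch (C (T.node x ch))) < rk ub (a0 0) (T.node x ch) := by
          rw [rk_node]; exact hub (fun i => rk ub (a0 0) (ch i)) _
        rw [← he] at h3
        exact lt_irrefl _ h3
      push Not at hnb
      obtain ⟨i, hi⟩ := hnb
      refine ⟨Nat.pair (C (T.node x ch)) i, hx, ⟨T.node x ch, rfl, by simp⟩, ?_⟩
      simpa using hi)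
  obtain ⟨v, hv, hv2⟩ := hy.2.1
  refine hx.2.2 v hv2 ?_
  rw [hv]
  exact ⟨hx.1, hy.1, Or.inl hR⟩

lemma bip2 {W : Type} [Fintype W] (H : SimpleGraph W) (lb : W → ℕ → O) (n : ℕ)
    (hn : Fintype.card W ≤ n) (hadj : ∀ u v, H.Adj u v → Ad (4 ^ (n + 3)) (lb u) (lb v)) :
    H.Colorable 2 := by
  obtain ⟨L, hL⟩ : ∃ L : ℕ, L = 4 ^ (n + 2) := ⟨_, rfl⟩
  have h2 : n + 1 ≤ 2 ^ n := Nat.lt_two_pow_self
  have h4 : (n + 1) ^ 2 ≤ 4 ^ n := by
    calc (n + 1) ^ 2 ≤ (2 ^ n) ^ 2 := Nat.pow_le_pow_left h2 2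
      _ = 4 ^ n := by rw [← pow_mul, mul_comm, pow_mul]; norm_num
  have hL2 : L = 16 * 4 ^ n := by rw [hL]; ring
  have hL3 : 4 ^ (n + 3) = 4 * L := by rw [hL]; ring
  have hLb : (2 * n + 6) * (n + 1) + n + 2 ≤ L := by nlinarith
  have hsg : ∀ t, L ≤ t → t < 4 * L → sg t = 2 * n + 6 := by
    intro t h1 h3
    unfold sg
    have : Nat.log 4 t = n + 2 := by
      rw [Nat.log_eq_iff (by omega)]
      exact ⟨by omega, by rw [show n + 2 + 1 = n + 3 by ring]; omega⟩
    omega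
  have key : ∀ x y : ℕ → O, R sg (4 ^ (n + 3)) x y → ∀ z : ℤ, -(L : ℤ) ≤ z → z ≤ L →
      x (z + (2 * n + 6) + 2 * L).toNat < y (z + 2 * L).toNat ∧
      y (z + 2 * L).toNat < x (z + (2 * n + 6) + 1 + 2 * L).toNat := by
    intro x y hR z h1 h3
    have h5 := hR (z + 2 * L).toNat (by omega)
    rw [hsg _ (by omega) (by omega)] at h5
    rw [show (z + (2 * n + 6) + 2 * L).toNat = (z + 2 * L).toNat + (2 * n + 6) by omega,
      show (z + (2 * n + 6) + 1 + 2 * L).toNat = (z + 2 * L).toNat + (2 * n + 6) + 1 by omega]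
    exact h5
  refine bip H (fun v z => lb v (z + 2 * L).toNat) n hn (2 * n + 6) L (by omega)
    (by exact_mod_cast hLb) ?_ ?_
  · intro u v h z z' h1 h3
    exact (hadj u v h).1 (by omega)
  · intro u v h
    exact (hadj u v h).2.2.imp (key _ _) (key _ _)

lemma fin_part (a0 : ℕ → O) (g N : ℕ → ℕ) (hN : ∀ i n, g n ≤ i → n ≤ N i) (S : Finset (T O)) :
    ∃ D : Finset (Sym2 (T O)), D.card ≤ g S.card * S.card ∧
      (((GG a0 (fun i => 4 ^ (N i + 3))).deleteEdges D).induce (S : Set (T O))).Colorable 2 := by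
  classical
  refine ⟨((Finset.range (g S.card)) ×ˢ S).image (fun p => s(p.2, kid p.2 p.1)), ?_, ?_⟩
  · refine Finset.card_image_le.trans ?_
    simp
  · refine bip2 _ (fun v => lab a0 v.1) S.card (by simp) ?_
    intro u v h
    have h1 : ((GG a0 (fun i => 4 ^ (N i + 3))).deleteEdges
      (((Finset.range (g S.card)) ×ˢ S).image (fun p => s(p.2, kid p.2 p.1)) :
        Finset (Sym2 (T O)))).Adj u.1 v.1 := h
    rw [SimpleGraph.deleteEdges_adj, GG, SimpleGraph.fromRel_adj] at h1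
    obtain ⟨⟨-, h2⟩, h3⟩ := h1
    have gen : ∀ (a : T O) (i : ℕ), a ∈ S → s(u.1, v.1) = s(a, kid a i) →
        4 ^ (S.card + 3) ≤ 4 ^ (N i + 3) := by
      intro a i ha he
      refine Nat.pow_le_pow_right (by norm_num) ?_
      have : g S.card ≤ i := by
        by_contra hc
        apply h3
        rw [he]
        exact Finset.mem_coe.mpr (Finset.mem_image.mpr ⟨(i, a), by simp [ha]; omega, rfl⟩)
      have := hN i _ this
      omega
    rcases h2 with ⟨i, h4, h5⟩ | ⟨i, h4, h5⟩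
    · exact h5.mono (gen u.1 i u.2 (by rw [h4]))
    · exact h5.symm.mono (gen v.1 i v.2 (by rw [h4, Sym2.eq_swap]))

lemma main (g : ℕ → ℕ) (hg : Filter.Tendsto g Filter.atTop Filter.atTop) :
    ∃ (V : Type) (G : SimpleGraph V),
      IsLeast {c : Cardinal.{0} | ∃ α : Type, #α = c ∧ Nonempty (G.Coloring α)} ℵ₁ ∧
      ∀ S : Finset V, ∃ D : Finset (Sym2 V), D.card ≤ g S.card * S.card ∧
        ((G.deleteEdges D).induce (S : Set V)).Colorable 2 := by
  obtain ⟨O, _, hO, hub⟩ := exists_om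
  have hne : Nonempty O := by
    rw [← Cardinal.mk_ne_zero_iff, hO]
    exact (Cardinal.aleph_pos 1).ne'
  obtain ⟨o⟩ := hne
  have : ∀ i, ∃ N, ∀ n, g n ≤ i → n ≤ N := by
    intro i
    obtain ⟨N, hN⟩ := Filter.eventually_atTop.mp (hg.eventually (Filter.eventually_gt_atTop i))
    refine ⟨N, fun n hn => ?_⟩
    by_contra hc
    have := hN n (by omega)
    omega
  choose N hN using this
  refine ⟨T O, GG (fun _ => o) (fun i => 4 ^ (N i + 3)), ⟨⟨O, hO, col_O hub _ _⟩, ?_⟩,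
    fin_part _ g N hN⟩
  rintro c ⟨α, rfl, ⟨C⟩⟩
  by_contra hc
  push Not at hc
  have h1 : #α ≤ ℵ₀ := Order.lt_succ_iff.mp (hc.trans_eq Cardinal.succ_aleph0.symm)
  have : Countable α := Cardinal.mk_le_aleph0_iff.mp h1
  obtain ⟨f, hf⟩ := exists_injective_nat α
  exact not_col hub _ _ (SimpleGraph.Coloring.mk (fun v => f (C v))
    (fun h he => C.valid h (hf he)))

end Pool.Agent.H.MP_5b422c_co
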